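import Pool.Agent.R853.GP.Main

/-!
Spectral bound and growth bound of positive groups on ordered Hilbert spaces coincide.
-/

open Filter Topology

namespace Pool.Agent.Results.MP_e5770a_an.GrowthBound

open Pool.Agent.R853.GP

universe u

theorem result (K : Type u) [NormedAddCommGroup K] [InnerProductSpace ℂ K] [CompleteSpace K]
    [Nontrivial K] (H : Submodule ℝ K) (P : Set K) (hO : IsOrdHilbert H P)
    (T : ℝ → K →L[ℂ] K) (hT : IsC0Group T) (hpos : ∀ t, ∀ x ∈ P, T t x ∈ P) :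
    ∃ w : ℝ, Tendsto (fun t : ℝ => t⁻¹ * Real.log ‖T t‖) atTop (𝓝 w) ∧
      IsGreatest {r : ℝ | ∃ z ∈ spec T, z.re = r} w ∧ (w : ℂ) ∈ spec T := by
  obtain ⟨w, h1, h2, h3⟩ := main hO hT hpos
  refine ⟨w, h1, ⟨⟨w, h2, by simp⟩, ?_⟩, h2⟩
  rintro r ⟨z, hz, rfl⟩
  exact h3 z hz

end Pool.Agent.Results.MP_e5770a_an.GrowthBound
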